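import Pool.Agent.H66.SLP.Rank

/-!
# REAL: segments are realized by rank systems
-/

set_option autoImplicit false

open Finset

namespace Pool.Agent.H66.SLP

/-! ### The lengthened segment -/

/-- starts in the lengthened segment -/
def sS (α : ℕ) (s : ℕ) : ℕ := if s ≤ α then 0 else s - α + 1

/-- ends in the lengthened segment -/
def eS (α β : ℕ) (e : ℕ) : ℕ := if β ≤ e then β - α + 2 else e - α + 1

/-- weights of the lengthened segment -/
noncomputable def wS (w : ℕ → ℝ) (α β : ℕ) (x : ℕ) : ℝ :=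
  if x = 0 ∨ x = β - α + 1 then 2 else if x < β - α + 1 then w (α + (x - 1)) else 0

theorem wS_nonneg {w : ℕ → ℝ} (hw : ∀ x, 0 ≤ w x) (α β x : ℕ) : 0 ≤ wS w α β x := by
  unfold wS
  split_ifs
  · norm_num
  · exact hw _
  · exact le_rfl

theorem wt_wS (w : ℕ → ℝ) (α β a b : ℕ) (hb : b ≤ β - α) :
    wt (wS w α β) (a + 1) (b + 1) = wt w (α + a) (α + b) := by
  unfold wt
  rw [← Finset.sum_Ico_add' (wS w α β) a b 1]
  have : ∑ x ∈ Ico (α + a) (α + b), w x = ∑ x ∈ Ico a b, w (x + α) := by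
    rw [Finset.sum_Ico_add' w a b α, Nat.add_comm α a, Nat.add_comm α b]
  rw [this]
  refine Finset.sum_congr rfl fun x hx => ?_
  rw [mem_Ico] at hx
  unfold wS
  rw [if_neg (by omega), if_pos (by omega), Nat.add_sub_cancel, Nat.add_comm]

theorem wt_wS_total (w : ℕ → ℝ) {α β : ℕ} (h : α < β) :
    wt (wS w α β) 0 (β - α + 2) = wt w α β + 4 := by
  rw [← wt_add _ (Nat.zero_le 1) (show 1 ≤ β - α + 2 by omega),
    ← wt_add _ (show 1 ≤ β - α + 1 by omega) (show β - α + 1 ≤ β - α + 2 by omega)]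
  have h1 := wt_wS w α β 0 (β - α) le_rfl
  have h2 : wt (wS w α β) 0 1 = 2 := by
    have := wt_single (wS w α β) (c := 1) (by omega)
    simp only [Nat.sub_self] at this
    rw [this]
    unfold wS
    rw [if_pos (Or.inl rfl)]
  have h3 : wt (wS w α β) (β - α + 1) (β - α + 2) = 2 := by
    have := wt_single (wS w α β) (c := β - α + 2) (by omega)
    have e1 : β - α + 2 - 1 = β - α + 1 := by omega
    rw [e1] at this
    rw [this]
    unfold wS
    rw [if_pos (Or.inr rfl)]
  rw [h2, h3]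
  have h4 : wt (wS w α β) 1 (β - α + 1) = wt w α β := by
    rw [Nat.zero_add] at h1
    rw [h1]
    congr 1
    omega
  rw [h4]
  ring

theorem seg_len {α β s e : ℕ} (hse : s < e) (h1 : s < β) (h2 : α < e) (h3 : α < β) :
    sS α s < eS α β e ∧ eS α β e ≤ β - α + 2 := by
  unfold sS eS
  split_ifs <;> omega

theorem seg_cov {α β s e x : ℕ} (hse : s < e) (h3 : α < β) :
    ((s < β ∧ α < e) ∧ sS α s ≤ x ∧ x < eS α β e ∧ x < β - α + 2) ↔
      (s ≤ max α (min (β - 1) (α + x - 1)) ∧ max α (min (β - 1) (α + x - 1)) < e ∧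
        x < β - α + 2) := by
  unfold sS eS
  split_ifs <;> omega

theorem seg_wt {w : ℕ → ℝ} (hw : ∀ x, 0 ≤ w x) {α β s e : ℕ} {p : ℝ}
    (h1 : s < β) (h2 : α < e) (h3 : α < β) (hp : p ≤ 2) (h : p ≤ wt w s e) :
    p ≤ wt (wS w α β) (sS α s) (eS α β e) := by
  have key : ∀ x, sS α s ≤ x → x < eS α β e → wS w α β x ≤
      wt (wS w α β) (sS α s) (eS α β e) := by
    intro x hx1 hx2
    unfold wt
    exact Finset.single_le_sum (f := wS w α β) (fun y _ => wS_nonneg hw α β y)
      (mem_Ico.2 ⟨hx1, hx2⟩)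
  by_cases hs : s ≤ α
  · refine hp.trans ?_
    have := key 0 (by unfold sS; rw [if_pos hs]) (by unfold eS; split_ifs <;> omega)
    unfold wS at this
    rw [if_pos (Or.inl rfl)] at this
    exact this
  · by_cases he : β ≤ e
    · refine hp.trans ?_
      have := key (β - α + 1) (by unfold sS; rw [if_neg hs]; omega)
        (by unfold eS; rw [if_pos he]; omega)
      unfold wS at this
      rw [if_pos (Or.inr rfl)] at this
      exact this
    · have e1 : sS α s = s - α + 1 := by unfold sS; rw [if_neg hs]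
      have e2 : eS α β e = e - α + 1 := by unfold eS; rw [if_neg he]
      rw [e1, e2, wt_wS w α β _ _ (by omega)]
      have e3 : α + (s - α) = s := by omega
      have e4 : α + (e - α) = e := by omega
      rw [e3, e4]
      exact h

theorem seg_sep {α β e s' : ℕ} (h1 : s' < β) (h2 : α < e) (h : e ≤ s') :
    eS α β e ≤ sS α s' := by
  unfold sS eS
  split_ifs <;> omega

/-! ### Subdivision of the cells -/

/-- weights of the subdivided cells -/
noncomputable def wD (w : ℕ → ℝ) (m : ℕ) (x : ℕ) : ℝ := w (x / m) / m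

theorem wt_wD (w : ℕ → ℝ) {m : ℕ} (hm : 0 < m) {a b : ℕ} (hab : a ≤ b) :
    wt (wD w m) (m * a) (m * b) = wt w a b := by
  induction b, hab using Nat.le_induction with
  | base => rw [wt_self, wt_self]
  | succ b hab ih =>
    rw [← wt_add _ (Nat.mul_le_mul_left m hab) (Nat.mul_le_mul_left m (Nat.le_succ b)), ih,
      ← wt_add w hab (Nat.le_succ b)]
    congr 1
    have h1 := wt_single w (c := b + 1) (by omega)
    simp only [Nat.add_sub_cancel] at h1
    show wt (wD w m) (m * b) (m * (b + 1)) = wt w b (b + 1)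
    rw [h1]
    unfold wt
    have h2 : ∀ x ∈ Ico (m * b) (m * (b + 1)), wD w m x = w b / m := by
      intro x hx
      rw [mem_Ico] at hx
      unfold wD
      have : x / m = b := by
        apply Nat.div_eq_of_lt_le
        · rw [Nat.mul_comm]
          exact hx.1
        · rw [Nat.mul_comm]
          exact hx.2
      rw [this]
    rw [Finset.sum_congr rfl h2, Finset.sum_const, Nat.card_Ico]
    have h3 : m * (b + 1) - m * b = m := by
      rw [Nat.mul_succ]
      omega
    rw [h3, nsmul_eq_mul]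
    have : (m : ℝ) ≠ 0 := by exact_mod_cast hm.ne'
    field_simp

/-- the indicator of an interval is the sum of the indicators of its pieces -/
theorem sum_pieces (c : ℕ → ℕ) (k x : ℕ) (hc : ∀ j < k, c j < c (j + 1)) :
    ∑ j ∈ range k, (if c j ≤ x ∧ x < c (j + 1) then 1 else 0) =
      (if c 0 ≤ x ∧ x < c k then 1 else 0) ∧ c 0 ≤ c k := by
  induction k with
  | zero => simp
  | succ k ih =>
    obtain ⟨h1, h2⟩ := ih fun j hj => hc j (by omega)
    have h3 := hc k (by omega)
    rw [Finset.sum_range_succ, h1]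
    refine ⟨?_, by omega⟩
    by_cases a1 : c 0 ≤ x <;> by_cases a2 : x < c k <;> by_cases a3 : x < c (k + 1) <;>
      by_cases a4 : c k ≤ x <;> simp [a1, a2, a3, a4] <;> omega

theorem pieces_mono {c : ℕ → ℕ} {k : ℕ} (hc : ∀ j < k, c j < c (j + 1)) {i j : ℕ}
    (hij : i ≤ j) (hj : j ≤ k) : c i ≤ c j := by
  induction j, hij using Nat.le_induction with
  | base => exact le_rfl
  | succ j hij ih => exact (ih (by omega)).trans (hc j (by omega)).le

/-- the position of a state of the greedy embedding in the lengthened and subdivided segment -/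
def pos (m α β g : ℕ) : ℕ := if β ≤ g then m * (β - α + 2) else m * (g - α + 1)

theorem pos_mono {m α β g g' : ℕ} (h : g ≤ g') : pos m α β g ≤ pos m α β g' := by
  unfold pos
  split_ifs
  · exact le_rfl
  · omega
  · exact Nat.mul_le_mul_left m (by omega)
  · exact Nat.mul_le_mul_left m (by omega)

theorem pos_top {m α β g : ℕ} (hm : 0 < m) (hαβ : α < β)
    (h : m * (β - α + 2) ≤ pos m α β g) : β ≤ g := by
  by_contra hg
  unfold pos at h
  rw [if_neg hg] at h
  have := Nat.le_of_mul_le_mul_left h hm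
  omega

theorem pos_step {m α β s e g k a b : ℕ} (hm : 0 < m) (hα : α ≤ g)
    (ha : m * sS α s ≤ a) (hb : b ≤ m * eS α β e) (hb' : eS α β e ≤ β - α + 2)
    (hag : a ≤ pos m α β g) (hgk : g ≤ k) (hocc : s ≤ k → e ≤ k + 1) :
    b ≤ pos m α β (k + 1) := by
  refine hb.trans ?_
  by_cases hk : β ≤ k + 1
  · unfold pos
    rw [if_pos hk]
    exact Nat.mul_le_mul_left m hb'
  · have h1 : m * sS α s ≤ pos m α β g := ha.trans hag
    unfold pos at h1
    rw [if_neg (by omega)] at h1
    have h2 := Nat.le_of_mul_le_mul_left h1 hm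
    have h3 : s ≤ k := by
      unfold sS at h2
      split_ifs at h2 with h4
      · omega
      · omega
    have h4 := hocc h3
    unfold pos
    rw [if_neg hk]
    refine Nat.mul_le_mul_left m ?_
    unfold eS
    rw [if_neg (by omega)]
    omega

theorem cons_sub {Y : Type} {u v : List Y} {z : Y} {g h : ℕ} (hh : h ≤ u.length)
    (hs : (z :: v).Sublist ((u.take h).drop g)) :
    ∃ k g', g ≤ k ∧ k + 1 ≤ g' ∧ g' ≤ h ∧ u[k]? = some z ∧
      v.Sublist ((u.take h).drop g') := by
  rw [List.cons_sublist_iff] at hs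
  obtain ⟨r1, r2, hr, hz, hv⟩ := hs
  obtain ⟨t, ht, hzt⟩ := List.getElem_of_mem hz
  have hlen : h - g = r1.length + r2.length := by
    have := congrArg List.length hr
    rw [List.length_drop, List.length_take, List.length_append] at this
    omega
  refine ⟨g + t, g + r1.length, by omega, by omega, by omega, ?_, ?_⟩
  · have h1 : ((u.take h).drop g)[t]? = some z := by
      rw [hr, List.getElem?_append_left ht, List.getElem?_eq_getElem ht, hzt]
    rw [List.getElem?_drop, List.getElem?_take_of_lt (by omega)] at h1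
    exact h1
  · rw [← List.drop_drop, hr, List.drop_left]
    exact hv

theorem path_greedy {Y : Type} (u : List Y) (S : RSys Y) (α β m : ℕ) (hm : 0 < m)
    (hαβ : α < β) (a b : ℕ → ℕ)
    (hstep : ∀ i < S.F, ∀ g k, α ≤ g → a i ≤ pos m α β g → g ≤ k →
      u[k]? = some (S.ℓ i) → b i ≤ pos m α β (k + 1))
    (hlast : ∀ i < S.F, S.F ≤ S.π i → b i = m * (β - α + 2))
    (hnext : ∀ i < S.F, ∀ j < S.F, j ≤ S.π i → a j ≤ b i) :
    ∀ (l : List ℕ) (i : ℕ), (∀ j ∈ i :: l, j < S.F) →
      (i :: l).IsChain (fun i j => j ≤ S.π i) → (∃ j ∈ (i :: l).getLast?, S.F ≤ S.π j) →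
      ∀ g h, α ≤ g → h ≤ u.length → a i ≤ pos m α β g →
        ((i :: l).map S.ℓ).Sublist ((u.take h).drop g) → β ≤ h
  | [], i, hF, _, hL, g, h, hg, hh, ha, hs => by
    obtain ⟨j, hj, hFj⟩ := hL
    simp only [List.getLast?_singleton, Option.mem_def, Option.some.injEq] at hj
    subst hj
    obtain ⟨k, g', h1, h2, h3, h4, _⟩ := cons_sub hh hs
    have h5 := hstep i (hF i List.mem_cons_self) g k hg ha h1 h4
    rw [hlast i (hF i List.mem_cons_self) hFj] at h5
    have := pos_top hm hαβ h5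
    omega
  | j :: l, i, hF, hC, hL, g, h, hg, hh, ha, hs => by
    rw [List.getLast?_cons_cons] at hL
    rw [List.isChain_cons_cons] at hC
    obtain ⟨k, g', h1, h2, h3, h4, h5⟩ := cons_sub hh hs
    have hi := hF i List.mem_cons_self
    have hj := hF j (List.mem_cons_of_mem _ List.mem_cons_self)
    have h6 := hstep i hi g k hg ha h1 h4
    exact path_greedy u S α β m hm hαβ a b hstep hlast hnext l j
      (fun y hy => hF y (List.mem_cons_of_mem _ hy)) hC.2 hL g' h (by omega) hh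
      ((hnext i hi j hj hC.1).trans (h6.trans (pos_mono h2))) h5

theorem pf_REAL (h1 : T_CUTS) (h2 : T_RANK) : T_REAL := by
  classical
  intro Y u p hp ι _ _ z s e w α β Q hQ hαβ hw hse hsep hocc hcov hwt
  -- the intervals which meet the segment
  let F₁ : Finset ι := univ.filter fun i => s i < β ∧ α < e i
  have hF₁ : ∀ i : {i // i ∈ F₁}, s i.1 < β ∧ α < e i.1 := fun i =>
    (Finset.mem_filter.1 i.2).2
  have hcov1 : ∀ x < β - α + 2, cov (fun i : {i // i ∈ F₁} => sS α (s i.1))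
      (fun i => eS α β (e i.1)) univ x = Q := by
    intro x hx
    rw [cov_sub (fun i => sS α (s i)) (fun i => eS α β (e i)) F₁ x,
      ← hcov (max α (min (β - 1) (α + x - 1))) (by omega) (by omega)]
    unfold cov
    congr 1
    ext i
    simp only [F₁, Finset.mem_filter, Finset.mem_univ, true_and]
    have := seg_cov (α := α) (β := β) (x := x) (hse i) hαβ
    constructor
    · rintro ⟨a1, a2, a3⟩
      have := this.1 ⟨a1, a2, a3, hx⟩
      exact ⟨this.1, this.2.1⟩
    · rintro ⟨a1, a2⟩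
      have := this.2 ⟨a1, a2, hx⟩
      exact ⟨this.1, this.2.1, this.2.2.1⟩
  -- subdivision
  obtain ⟨m, hm, hmw⟩ : ∃ m : ℕ, 0 < m ∧ ∀ x, wS w α β x ≤ m := by
    obtain ⟨m, hm⟩ := exists_nat_gt (∑ x ∈ range (β - α + 2), wS w α β x)
    refine ⟨m + 1, Nat.succ_pos m, fun x => ?_⟩
    push_cast
    by_cases hx : x < β - α + 2
    · have h3 := Finset.single_le_sum (f := wS w α β) (fun y _ => wS_nonneg hw α β y)
        (mem_range.2 hx)
      linarith
    · have h3 : wS w α β x = 0 := by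
        unfold wS
        rw [if_neg (by omega), if_neg (by omega)]
      rw [h3]
      positivity
  have hmR : (0 : ℝ) < m := by exact_mod_cast hm
  have hw2 : ∀ x, 0 ≤ wD (wS w α β) m x ∧ wD (wS w α β) m x ≤ 1 := by
    intro x
    unfold wD
    refine ⟨div_nonneg (wS_nonneg hw α β _) hmR.le, ?_⟩
    rw [div_le_one hmR]
    exact hmw _
  -- pieces
  have hcut : ∀ i : {i // i ∈ F₁}, ∃ (k : ℕ) (c : ℕ → ℕ), 1 ≤ k ∧
      c 0 = m * sS α (s i.1) ∧ c k = m * eS α β (e i.1) ∧
      ∀ j < k, c j < c (j + 1) ∧ p (z i.1) ≤ wt (wD (wS w α β) m) (c j) (c (j + 1)) ∧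
        wt (wD (wS w α β) m) (c j) (c (j + 1)) ≤ 2 * p (z i.1) + 1 := by
    intro i
    refine h1 _ _ _ _ hw2 (by linarith [(hp (z i.1)).1]) ?_
    have h3 := seg_len (hse i.1) (hF₁ i).1 (hF₁ i).2 hαβ
    rw [wt_wD _ hm h3.1.le]
    exact seg_wt hw (hF₁ i).1 (hF₁ i).2 hαβ (hp (z i.1)).2 (hwt i.1)
  choose k c hk hc0 hck hc using hcut
  have hcm : ∀ i {j j' : ℕ}, j ≤ j' → j' ≤ k i → c i j ≤ c i j' := fun i _ _ h h' =>
    pieces_mono (fun y hy => (hc i y hy).1) h h'
  have hs2 : ∀ (i : {i // i ∈ F₁}) (j : ℕ), j ≤ k i → m * sS α (s i.1) ≤ c i j := by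
    intro i j hj
    rw [← hc0 i]
    exact hcm i (Nat.zero_le j) hj
  have he2 : ∀ (i : {i // i ∈ F₁}) (j : ℕ), j ≤ k i → c i j ≤ m * eS α β (e i.1) := by
    intro i j hj
    rw [← hck i]
    exact hcm i hj le_rfl
  have hsep2 : ∀ x y : Σ i : {i // i ∈ F₁}, Fin (k i), x ≠ y → z x.1.1 = z y.1.1 →
      c x.1 (x.2.1 + 1) ≤ c y.1 y.2.1 ∨ c y.1 (y.2.1 + 1) ≤ c x.1 x.2.1 := by
    rintro ⟨i, j⟩ ⟨i', j'⟩ hne hz
    by_cases hi : i = i'
    · subst hi
      have hj : j.1 ≠ j'.1 := fun h => hne (by rw [Fin.ext h])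
      rcases Nat.lt_or_gt_of_ne hj with h | h
      · exact Or.inl (hcm i (show j.1 + 1 ≤ j'.1 from h) j'.2.le)
      · exact Or.inr (hcm i (show j'.1 + 1 ≤ j.1 from h) j.2.le)
    · have hi' : i.1 ≠ i'.1 := fun h => hi (Subtype.ext h)
      rcases hsep i.1 i'.1 hi' hz with h | h
      · left
        exact (he2 i (j.1 + 1) j.2).trans ((Nat.mul_le_mul_left m
          (seg_sep (hF₁ i').1 (hF₁ i).2 h)).trans (hs2 i' j'.1 j'.2.le))
      · right
        exact (he2 i' (j'.1 + 1) j'.2).trans ((Nat.mul_le_mul_left m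
          (seg_sep (hF₁ i).1 (hF₁ i').2 h)).trans (hs2 i j.1 j.2.le))
  have hcov2 : ∀ x < m * (β - α + 2), cov (fun y : Σ i : {i // i ∈ F₁}, Fin (k i) =>
      c y.1 y.2.1) (fun y => c y.1 (y.2.1 + 1)) univ x = Q := by
    intro x hx
    have hx' : x / m < β - α + 2 := (Nat.div_lt_iff_lt_mul hm).2 (by
      rw [Nat.mul_comm]
      exact hx)
    rw [← hcov1 (x / m) hx', cov_eq, cov_eq, Fintype.sum_sigma]
    refine Finset.sum_congr rfl fun i _ => ?_
    have h3 := (sum_pieces (c i) (k i) x fun j hj => (hc i j hj).1).1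
    rw [hc0, hck] at h3
    rw [Fin.sum_univ_eq_sum_range
      (fun j => if c i j ≤ x ∧ x < c i (j + 1) then 1 else 0) (k i), h3]
    have h4 : (m * sS α (s i.1) ≤ x ∧ x < m * eS α β (e i.1)) ↔
        (sS α (s i.1) ≤ x / m ∧ x / m < eS α β (e i.1)) := by
      rw [Nat.le_div_iff_mul_le hm, Nat.div_lt_iff_lt_mul hm, Nat.mul_comm,
        Nat.mul_comm m]
    simp only [h4]
  obtain ⟨S, f, r1, r2, r3, r4, r5, r6⟩ := h2 Y (Σ i : {i // i ∈ F₁}, Fin (k i))
    (fun y => z y.1.1) (m * (β - α + 2)) Q (fun y => c y.1 y.2.1)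
    (fun y => c y.1 (y.2.1 + 1)) (wD (wS w α β) m) hQ
    (Nat.mul_pos hm (by omega)) (by
      rintro ⟨i, j⟩
      refine ⟨(hc i j.1 j.2).1, (he2 i (j.1 + 1) j.2).trans (Nat.mul_le_mul_left m ?_)⟩
      exact (seg_len (hse i.1) (hF₁ i).1 (hF₁ i).2 hαβ).2) (fun x => (hw2 x).1) hcov2 (by
      rintro ⟨i, j⟩
      have h3 := (hc i j.1 j.2).2
      have h4 := hp (z i.1)
      exact ⟨by linarith [h3.1], by linarith [h3.2]⟩) hsep2
  refine ⟨S, r1, ?_, ?_, ?_, ?_⟩
  · have h3 := wt_wD (wS w α β) hm (Nat.zero_le (β - α + 2))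
    rw [Nat.mul_zero] at h3
    rw [r2, h3, wt_wS_total w hαβ]
  · intro i hi
    exact ⟨(f i).1.1, (r3 i hi).1⟩
  · intro i hi
    rw [(r3 i hi).1, (r3 i hi).2.1, (r3 i hi).2.2]
    have h3 := hc (f i).1 (f i).2.1 (f i).2.2
    rw [← wt_add _ (Nat.zero_le _) h3.1.le]
    linarith [h3.2.1]
  · intro l hl g h hg hh hs
    obtain ⟨q1, ⟨i, q2, q3⟩, q4, q5⟩ := hl
    cases l with
    | nil => simp at q2
    | cons j l =>
      simp only [List.head?_cons, Option.mem_def, Option.some.injEq] at q2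
      subst q2
      refine path_greedy u S α β m hm hαβ (fun i => c (f i).1 (f i).2.1)
        (fun i => c (f i).1 ((f i).2.1 + 1)) ?_ r5 r6 l j q1 q4 q5 g h hg hh ?_ hs
      · intro i hi g k' hg ha hgk hu
        rw [(r3 i hi).1] at hu
        refine pos_step hm hg (hs2 (f i).1 (f i).2.1 (f i).2.2.le)
          (he2 (f i).1 ((f i).2.1 + 1) (f i).2.2)
          (seg_len (hse (f i).1.1) (hF₁ (f i).1).1 (hF₁ (f i).1).2 hαβ).2 ha hgk ?_
        intro hsk
        by_contra hne
        exact hocc (f i).1.1 k' hsk (by omega) hu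
      · show c (f j).1 (f j).2.1 ≤ _
        have := r4 j q3
        show c (f j).1 (f j).2.1 ≤ _
        rw [this]
        exact Nat.zero_le _

end Pool.Agent.H66.SLP
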