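import Pool.Agent.H66.SLP.Dual
import Pool.Agent.H66.SLP.Real

/-!
# The linear programming part, complete
-/

set_option autoImplicit false

namespace Pool.Agent.H66.SLP

theorem lp : T_LP := pf_LP pf_DUAL pf_TRIM pf_WEAK

theorem rank : T_RANK := pf_RANK

theorem real : T_REAL := pf_REAL pf_CUTS pf_RANK

theorem nsw : T_NSW := pf_NSW

theorem cost : T_COST := pf_COST

end Pool.Agent.H66.SLP
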