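import Pool.Agent.H66.SLP.Targets

/-!
# WEAK, TRIM, CUTS, COST, NSW
-/

set_option autoImplicit false

open Finset

namespace Pool.Agent.H66.SLP

theorem cov_eq {ι : Type} (s e : ι → ℕ) (F : Finset ι) (x : ℕ) :
    cov s e F x = ∑ i ∈ F, if s i ≤ x ∧ x < e i then 1 else 0 := by
  unfold cov
  rw [Finset.card_filter]

theorem cov_cast {ι : Type} (s e : ι → ℕ) (F : Finset ι) (x : ℕ) :
    (cov s e F x : ℝ) = ∑ i ∈ F, if s i ≤ x ∧ x < e i then (1 : ℝ) else 0 := by
  rw [cov_eq]
  push_cast
  rfl

theorem wt_ind (w : ℕ → ℝ) {a b N : ℕ} (h : b ≤ N) :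
    wt w a b = ∑ x ∈ range N, if a ≤ x ∧ x < b then w x else 0 := by
  unfold wt
  rw [← Finset.sum_filter]
  refine Finset.sum_congr ?_ fun _ _ => rfl
  ext x
  simp only [mem_Ico, mem_filter, mem_range]
  constructor
  · rintro ⟨h1, h2⟩
    exact ⟨by omega, h1, h2⟩
  · rintro ⟨_, h1, h2⟩
    exact ⟨h1, h2⟩

theorem sum_wt {ι : Type} (w : ℕ → ℝ) (s e : ι → ℕ) (F : Finset ι) (N : ℕ)
    (h : ∀ i ∈ F, e i ≤ N) :
    ∑ i ∈ F, wt w (s i) (e i) = ∑ x ∈ range N, w x * cov s e F x := by
  rw [Finset.sum_congr rfl fun i hi => wt_ind w (h i hi), Finset.sum_comm]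
  refine Finset.sum_congr rfl fun x _ => ?_
  rw [cov_cast, Finset.mul_sum]
  refine Finset.sum_congr rfl fun i _ => ?_
  split_ifs <;> simp

theorem wt_zero (w : ℕ → ℝ) (N : ℕ) : wt w 0 N = ∑ x ∈ range N, w x := by
  unfold wt
  rw [Finset.range_eq_Ico]

theorem wt_add (w : ℕ → ℝ) {a b c : ℕ} (h1 : a ≤ b) (h2 : b ≤ c) :
    wt w a b + wt w b c = wt w a c := by
  unfold wt
  exact Finset.sum_Ico_consecutive w h1 h2

theorem wt_self (w : ℕ → ℝ) (a : ℕ) : wt w a a = 0 := by
  unfold wt
  simp

theorem wt_single (w : ℕ → ℝ) {c : ℕ} (h : 0 < c) : wt w (c - 1) c = w (c - 1) := by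
  obtain ⟨c, rfl⟩ : ∃ d, c = d + 1 := ⟨c - 1, by omega⟩
  unfold wt
  simp

theorem wt_nonneg {w : ℕ → ℝ} (h : ∀ x, 0 ≤ w x) (a b : ℕ) : 0 ≤ wt w a b :=
  Finset.sum_nonneg fun x _ => h x

theorem wt_mono {w : ℕ → ℝ} (h : ∀ x, 0 ≤ w x) {a b c : ℕ} (hbc : b ≤ c) :
    wt w a b ≤ wt w a c := by
  unfold wt
  exact Finset.sum_le_sum_of_subset_of_nonneg
    (Finset.Ico_subset_Ico_right hbc) fun x _ _ => h x

theorem pf_WEAK : T_WEAK := by
  intro ι _ _ N Q M s e p F F₀ w hse hw hQ hF hnF hM
  have h1 : (M : ℝ) * wt w 0 N ≤ ∑ i ∈ F₀, wt w (s i) (e i) := by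
    rw [sum_wt w s e F₀ N fun i _ => (hse i).2, wt_zero, Finset.mul_sum]
    refine Finset.sum_le_sum fun x hx => ?_
    rw [mul_comm]
    have : (M : ℝ) ≤ cov s e F₀ x := by
      exact_mod_cast hM x (Finset.mem_range.1 hx)
    exact mul_le_mul_of_nonneg_left this (hw x)
  have h2 : ∑ i ∈ F, wt w (s i) (e i) = (Q : ℝ) * wt w 0 N := by
    rw [sum_wt w s e F N fun i _ => (hse i).2, wt_zero, Finset.mul_sum]
    refine Finset.sum_congr rfl fun x hx => ?_
    rcases (hw x).lt_or_eq with h | h
    · rw [hQ x (Finset.mem_range.1 hx) h, mul_comm]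
    · rw [← h, zero_mul, mul_zero]
  have h3 : ∑ i ∈ F₀, wt w (s i) (e i) ≤ ∑ i ∈ F₀, p i +
      ∑ i ∈ F, (wt w (s i) (e i) - p i) := by
    have h4 : ∑ i ∈ F₀, (wt w (s i) (e i) - p i) ≤ ∑ i ∈ F, (wt w (s i) (e i) - p i) := by
      calc ∑ i ∈ F₀, (wt w (s i) (e i) - p i)
          = ∑ i ∈ F₀ ∩ F, (wt w (s i) (e i) - p i) +
            ∑ i ∈ F₀ \ F, (wt w (s i) (e i) - p i) := by
            exact (Finset.sum_inter_add_sum_sdiff F₀ F _).symm
        _ ≤ ∑ i ∈ F₀ ∩ F, (wt w (s i) (e i) - p i) + 0 := by
            refine add_le_add le_rfl (Finset.sum_nonpos fun i hi => ?_)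
            have := hnF i (Finset.mem_sdiff.1 hi).2
            linarith
        _ ≤ ∑ i ∈ F, (wt w (s i) (e i) - p i) := by
            rw [add_zero]
            refine Finset.sum_le_sum_of_subset_of_nonneg Finset.inter_subset_right
              fun i hi _ => ?_
            have := hF i hi
            linarith
    rw [Finset.sum_sub_distrib] at h4
    linarith
  rw [Finset.sum_sub_distrib, h2] at h3
  linarith

theorem cov_anti {ι : Type} {s s' : ι → ℕ} (e : ι → ℕ) (F : Finset ι) (x : ℕ)
    (h : ∀ i, s i ≤ s' i) : cov s' e F x ≤ cov s e F x := by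
  unfold cov
  refine Finset.card_le_card ?_
  intro i hi
  rw [Finset.mem_filter] at hi ⊢
  exact ⟨hi.1, (h i).trans hi.2.1, hi.2.2⟩

theorem trim_aux {ι : Type} [Fintype ι] [DecidableEq ι] (α β Q : ℕ) (e : ι → ℕ) :
    ∀ (n : ℕ) (s : ι → ℕ), ∑ x ∈ Ico α β, (cov s e univ x - Q) = n →
    (∀ x, α ≤ x → x < β → Q ≤ cov s e univ x) →
    ∃ s' : ι → ℕ, (∀ i, s i ≤ s' i) ∧
      (∀ x, α ≤ x → x < β → cov s' e univ x = Q) ∧
      (∀ i x, s i ≤ x → x < s' i → x < e i → x < α ∨ Q < cov s e univ x) := by
  intro n
  induction n using Nat.strong_induction_on with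
  | _ n ih =>
    intro s hn hQ
    by_cases hall : ∀ x, α ≤ x → x < β → cov s e univ x = Q
    · exact ⟨s, fun i => le_rfl, hall, fun i x h1 h2 => by omega⟩
    · push Not at hall
      have hex : ∃ x, α ≤ x ∧ x < β ∧ cov s e univ x ≠ Q := by
        obtain ⟨x, h1, h2, h3⟩ := hall
        exact ⟨x, h1, h2, h3⟩
      classical
      let x := Nat.find hex
      obtain ⟨hx1, hx2, hx3⟩ := Nat.find_spec hex
      change α ≤ x at hx1
      change x < β at hx2
      change cov s e univ x ≠ Q at hx3
      have hmin : ∀ y, α ≤ y → y < x → cov s e univ y = Q := by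
        intro y h1 h2
        by_contra h
        exact Nat.find_min hex h2 ⟨h1, by omega, h⟩
      have hgt : Q < cov s e univ x := lt_of_le_of_ne (hQ x hx1 hx2) (Ne.symm hx3)
      -- an interval which covers `x` and starts at `x`, or `x = α`
      have hi : ∃ i, s i ≤ x ∧ x < e i ∧ (x = α ∨ s i = x) := by
        rcases hx1.eq_or_lt with h | h
        · have hpos : 0 < cov s e univ x := lt_of_le_of_lt (Nat.zero_le _) hgt
          unfold cov at hpos
          obtain ⟨i, hi⟩ := Finset.card_pos.1 hpos
          rw [Finset.mem_filter] at hi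
          exact ⟨i, hi.2.1, hi.2.2, Or.inl h.symm⟩
        · have h1 : cov s e univ (x - 1) < cov s e univ x := by
            rw [hmin (x - 1) (by omega) (by omega)]
            exact hgt
          unfold cov at h1
          obtain ⟨i, hi1, hi2⟩ := Finset.exists_mem_notMem_of_card_lt_card h1
          rw [Finset.mem_filter] at hi1 hi2
          refine ⟨i, hi1.2.1, hi1.2.2, Or.inr ?_⟩
          by_contra h2
          exact hi2 ⟨Finset.mem_univ _, by omega, by omega⟩
      obtain ⟨i, hi1, hi2, hi3⟩ := hi
      let s1 := Function.update s i (x + 1)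
      have hs1 : ∀ j, s j ≤ s1 j := by
        intro j
        by_cases h : j = i
        · subst h
          simp only [s1, Function.update_self]
          omega
        · simp only [s1, Function.update_of_ne h]
          exact le_rfl
      have hc1 : ∀ y, α ≤ y → y ≠ x → cov s1 e univ y = cov s e univ y := by
        intro y hy1 hy2
        unfold cov
        congr 1
        ext j
        simp only [Finset.mem_filter, Finset.mem_univ, true_and]
        by_cases h : j = i
        · subst h
          simp only [s1, Function.update_self]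
          constructor
          · rintro ⟨h1, h2⟩
            exact ⟨by omega, h2⟩
          · rintro ⟨h1, h2⟩
            refine ⟨?_, h2⟩
            rcases hi3 with h3 | h3
            · omega
            · omega
        · simp only [s1, Function.update_of_ne h]
      have hc2 : cov s1 e univ x + 1 = cov s e univ x := by
        unfold cov
        have : (univ.filter fun j => s j ≤ x ∧ x < e j) =
            insert i (univ.filter fun j => s1 j ≤ x ∧ x < e j) := by
          ext j
          simp only [Finset.mem_filter, Finset.mem_univ, true_and, Finset.mem_insert]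
          by_cases h : j = i
          · subst h
            exact ⟨fun _ => Or.inl rfl, fun _ => ⟨hi1, hi2⟩⟩
          · simp only [s1, Function.update_of_ne h]
            constructor
            · intro h1
              exact Or.inr h1
            · rintro (h1 | h1)
              · exact absurd h1 h
              · exact h1
        rw [this, Finset.card_insert_of_notMem]
        simp only [Finset.mem_filter, Finset.mem_univ, true_and, s1, Function.update_self]
        omega
      have hlt : ∑ y ∈ Ico α β, (cov s1 e univ y - Q) < n := by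
        rw [← hn]
        refine Finset.sum_lt_sum ?_ ⟨x, Finset.mem_Ico.2 ⟨hx1, hx2⟩, ?_⟩
        · intro y _
          exact Nat.sub_le_sub_right (cov_anti e univ y hs1) Q
        · omega
      have hQ1 : ∀ y, α ≤ y → y < β → Q ≤ cov s1 e univ y := by
        intro y h1 h2
        by_cases h : y = x
        · subst h
          omega
        · rw [hc1 y h1 h]
          exact hQ y h1 h2
      obtain ⟨s', h1, h2, h3⟩ := ih _ hlt s1 rfl hQ1
      refine ⟨s', fun j => (hs1 j).trans (h1 j), h2, ?_⟩
      intro j y hy1 hy2 hy3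
      by_cases hy4 : s1 j ≤ y
      · rcases h3 j y hy4 hy2 hy3 with h | h
        · exact Or.inl h
        · exact Or.inr (lt_of_lt_of_le h (cov_anti e univ y hs1))
      · have hji : j = i := by
          by_contra h
          apply hy4
          simp only [s1, Function.update_of_ne h]
          exact hy1
        subst hji
        simp only [s1, Function.update_self] at hy4
        rcases hi3 with h | h
        · by_cases hyx : y = x
          · subst hyx
            exact Or.inr hgt
          · left
            omega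
        · have hyx : y = x := by omega
          subst hyx
          exact Or.inr hgt

theorem pf_TRIM : T_TRIM := by
  intro ι _ _ α β Q s e _ hQ
  exact trim_aux α β Q e _ s rfl hQ

theorem pf_CUTS : T_CUTS := by
  intro w p a b hw hp hab
  have key : ∀ (n a : ℕ), b - a = n → p ≤ wt w a b → ∃ (k : ℕ) (c : ℕ → ℕ), 1 ≤ k ∧ c 0 = a ∧
      c k = b ∧ ∀ j < k, c j < c (j + 1) ∧ p ≤ wt w (c j) (c (j + 1)) ∧
        wt w (c j) (c (j + 1)) ≤ 2 * p + 1 := by
    intro n
    induction n using Nat.strong_induction_on with
    | _ n ih =>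
      intro a hn hab
      have hlt : a < b := by
        by_contra h
        have : wt w a b = 0 := by
          unfold wt
          rw [Finset.Ico_eq_empty_of_le (by omega)]
          rfl
        linarith
      have hex : ∃ c, a < c ∧ p ≤ wt w a c := ⟨b, hlt, hab⟩
      classical
      obtain ⟨h1, h2⟩ := Nat.find_spec hex
      have hcb : Nat.find hex ≤ b := Nat.find_min' hex ⟨hlt, hab⟩
      have hsm : wt w a (Nat.find hex) ≤ p + 1 := by
        have h3 : wt w a (Nat.find hex - 1) ≤ p := by
          by_cases h4 : a < Nat.find hex - 1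
          · have h5 := Nat.find_min hex (m := Nat.find hex - 1) (by omega)
            push Not at h5
            exact (h5 h4).le
          · have : Nat.find hex - 1 = a := by omega
            rw [this, wt_self]
            exact hp.le
        have h6 : wt w a (Nat.find hex) = wt w a (Nat.find hex - 1) +
            w (Nat.find hex - 1) := by
          rw [← wt_add w (a := a) (b := Nat.find hex - 1) (c := Nat.find hex) (by omega)
            (by omega)]
          rw [wt_single w (by omega)]
        have := (hw (Nat.find hex - 1)).2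
        linarith
      by_cases h7 : p ≤ wt w (Nat.find hex) b
      · obtain ⟨k, c, hk, hc0, hck, hc⟩ := ih (b - Nat.find hex) (by omega) _ rfl h7
        refine ⟨k + 1, fun j => if j = 0 then a else c (j - 1), by omega, by simp, ?_, ?_⟩
        · simp [hck]
        · intro j hj
          rcases Nat.eq_zero_or_pos j with hj0 | hj0
          · subst hj0
            simp only [Nat.zero_add, if_true, one_ne_zero, if_false, Nat.sub_self]
            rw [hc0]
            refine ⟨h1, h2, by linarith⟩
          · have e1 : (if j = 0 then a else c (j - 1)) = c (j - 1) := if_neg (by omega)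
            have e2 : (if j + 1 = 0 then a else c (j + 1 - 1)) = c (j - 1 + 1) := by
              rw [if_neg (by omega)]
              congr 1
              omega
            simp only [e1, e2]
            exact hc (j - 1) (by omega)
      · push Not at h7
        refine ⟨1, fun j => if j = 0 then a else b, le_rfl, by simp, by simp, ?_⟩
        intro j hj
        have hj0 : j = 0 := by omega
        subst hj0
        simp only [Nat.zero_add, if_true, one_ne_zero, if_false]
        refine ⟨hlt, hab, ?_⟩
        rw [← wt_add w (a := a) (b := Nat.find hex) (c := b) (by omega) hcb]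
        linarith
  exact key _ a rfl hab

theorem ovl_nonneg {Y : Type} (S : RSys Y) : ∀ l : List ℕ,
    l.IsChain (fun i j => j ≤ S.π i) → 0 ≤ S.ovl l
  | [], _ => le_rfl
  | [_], _ => le_rfl
  | i :: j :: l, h => by
    rw [List.isChain_cons_cons] at h
    have h1 := ovl_nonneg S (j :: l) h.2
    have h2 := S.mono h.1
    show 0 ≤ S.τ (S.π i) - S.τ j + S.ovl (j :: l)
    linarith

theorem cost_aux {Y : Type} (S : RSys Y) : ∀ (l : List ℕ) (i : ℕ),
    (∃ j ∈ (i :: l).getLast?, S.F ≤ S.π j) →
    ((i :: l).map fun i => S.τ (S.π i) - S.τ i).sum = S.W - S.τ i + S.ovl (i :: l)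
  | [], i, h => by
    obtain ⟨j, hj, hF⟩ := h
    simp only [List.getLast?_singleton, Option.mem_def, Option.some.injEq] at hj
    subst hj
    show S.τ (S.π i) - S.τ i + 0 = S.W - S.τ i + 0
    rw [S.top _ hF]
  | j :: l, i, h => by
    rw [List.getLast?_cons_cons] at h
    have h1 := cost_aux S l j h
    show S.τ (S.π i) - S.τ i + ((j :: l).map fun i => S.τ (S.π i) - S.τ i).sum =
      S.W - S.τ i + (S.τ (S.π i) - S.τ j + S.ovl (j :: l))
    rw [h1]
    ring

theorem pf_COST : T_COST := by
  intro Y S l hl
  obtain ⟨_, ⟨i, hi, hQ⟩, hc, hlast⟩ := hl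
  refine ⟨?_, ovl_nonneg S l hc⟩
  cases l with
  | nil => simp at hi
  | cons j l =>
    simp only [List.head?_cons, Option.mem_def, Option.some.injEq] at hi
    subst hi
    rw [cost_aux S l j hlast, S.zero j hQ, sub_zero]

theorem nsw_aux {Y : Type} (u : List Y) : ∀ (vs : List (List Y)) (β : ℕ → ℕ) (g : ℕ),
    β 0 ≤ g → g ≤ u.length →
    (∀ j v, vs[j]? = some v → ∀ g h, β j ≤ g → h ≤ u.length →
      v.Sublist ((u.take h).drop g) → β (j + 1) ≤ h) →
    vs.flatten.Sublist (u.drop g) → β vs.length ≤ u.length
  | [], β, g, h0, hg, _, _ => h0.trans hg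
  | v :: vs, β, g, h0, hg, hv, hs => by
    rw [List.flatten_cons, List.append_sublist_iff] at hs
    obtain ⟨r1, r2, hr, hr1, hr2⟩ := hs
    have hlen : g + r1.length + r2.length = u.length := by
      have := congrArg List.length hr
      rw [List.length_drop, List.length_append] at this
      omega
    have e1 : (u.take (g + r1.length)).drop g = r1 := by
      rw [← List.take_drop, hr, List.take_left]
    have e2 : u.drop (g + r1.length) = r2 := by
      rw [← List.drop_drop, hr, List.drop_left]
    have h1 := hv 0 v rfl g (g + r1.length) h0 (by omega) (by rw [e1]; exact hr1)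
    refine nsw_aux u vs (fun j => β (j + 1)) (g + r1.length) h1 (by omega) ?_ ?_
    · intro j v' hj
      exact hv (j + 1) v' (by simpa using hj)
    · rw [e2]
      exact hr2

theorem pf_NSW : T_NSW := by
  intro Y u β vs h0 hL hv hs
  have := nsw_aux u vs β 0 (by omega) (Nat.zero_le _) hv (by simpa using hs)
  omega

end Pool.Agent.H66.SLP
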