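import Pool.Agent.H66.SLP.Targets
import Pool.Agent.H90.SPW.Defs

/-!
# The abstract theorem on chains with letters, and the theorem on rank systems: targets
-/

set_option autoImplicit false

open Finset

namespace Pool.Agent.H66.SLP

open Pool.Agent.H90.SPW

/-- a path of a chain: a list of edges of positive weight, each of which starts where the last one
ends -/
def Walk {X E Y : Type} [Fintype X] [Fintype E] (c : Ch X E Y) (l : List E) : Prop :=
  (∀ e ∈ l, 0 < c.wt e) ∧ l.IsChain fun a b => c.tgt a = c.src b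

/-- the expectation of the sum of `f` over the first `n` edges, from the start weights `s` -/
noncomputable def exf {X E Y : Type} [Fintype X] [Fintype E] (c : Ch X E Y) (s : X → ℝ) (n : ℕ)
    (f : E → ℝ) : ℝ :=
  ∑ t ∈ range n, ∑ x, ∑ e, s x * c.P t x (c.src e) * c.wt e * f e

/-- AT: if every letter has a small expected number of uses, from every state in both directions,
then there is a path of `n` steps without a repeated letter, whose `f`-cost is not much larger than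
the expectation. -/
def T_AT : Prop := ∀ c₀ : ℝ, 0 < c₀ → ∃ (C : ℝ) (N₀ : ℕ), ∀ N ≥ N₀,
  ∀ (X E Y : Type) [Fintype X] [Fintype E] [Fintype Y] (c : Ch X E Y) (n : ℕ) (s : X → ℝ)
  (f : E → ℝ), Fintype.card X ≤ N → Fintype.card E ≤ N → 1 ≤ n → n ≤ N →
  c.UseLe n ((N : ℝ) ^ (-c₀)) → c.rev.UseLe n ((N : ℝ) ^ (-c₀)) →
  (∀ x, 0 ≤ s x) → ∑ x, s x = 1 → 1 / 2 ≤ ∑ x, ∑ z, s x * c.P n x z →
  (∀ e, 0 ≤ f e) →
  ∃ l : List E, l.length = n ∧ Walk c l ∧ (∀ e ∈ l.head?, 0 < s (c.src e)) ∧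
    (l.filterMap c.lt).Nodup ∧ (l.map f).sum ≤ C * exf c s n f

/-- MAIN: rank systems with few rides compared with the coverage have paths with distinct letters,
of small total overlap. The coverages are powers of two. -/
def T_MAIN : Prop := ∀ (ε : ℝ) (R : ℕ), 0 < ε → ∃ C : ℝ, ∀ n : ℝ, 1 ≤ n →
  ∀ (Y : Type) [Fintype Y] (S : Fin R → RSys Y), (∀ r, 0 < (S r).W) → (∀ r, (S r).W ≤ n) →
  (∀ r, ∃ q : ℕ, (S r).Q = 2 ^ q) → (∀ r, ((S r).Q : ℝ) ≤ n ^ (10 : ℕ)) →
  (∀ r, C * ((S r).W + 1) * n ^ ε ≤ (S r).Q) →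
  ∃ l : Fin R → List ℕ, (∀ r, (S r).Path (l r)) ∧
    (List.ofFn fun r => (l r).map (S r).ℓ).flatten.Nodup ∧
    ∀ r, (S r).ovl (l r) ≤ C

end Pool.Agent.H66.SLP
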