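import Pool.Agent.H66.SLP.Easy

/-!
# DUAL: shortest path potentials of the residual graph
-/

set_option autoImplicit false

open Finset

namespace Pool.Agent.H66.SLP

section walks

variable {A V : Type} (src tgt : A → V)

/-- walks in a directed graph, as lists of arcs -/
def Wk : V → V → List A → Prop
  | u, v, [] => u = v
  | u, v, a :: l => src a = u ∧ Wk (tgt a) v l

theorem wk_append : ∀ (l₁ l₂ : List A) (u v : V), Wk src tgt u v (l₁ ++ l₂) ↔
    ∃ m, Wk src tgt u m l₁ ∧ Wk src tgt m v l₂
  | [], l₂, u, v => by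
    constructor
    · intro h
      exact ⟨u, rfl, h⟩
    · rintro ⟨m, h1, h2⟩
      have h1 : u = m := h1
      subst h1
      exact h2
  | a :: l₁, l₂, u, v => by
    constructor
    · rintro ⟨h1, h2⟩
      obtain ⟨m, h3, h4⟩ := (wk_append l₁ l₂ (tgt a) v).1 h2
      exact ⟨m, ⟨h1, h3⟩, h4⟩
    · rintro ⟨m, ⟨h1, h3⟩, h4⟩
      exact ⟨h1, (wk_append l₁ l₂ (tgt a) v).2 ⟨m, h3, h4⟩⟩

theorem wk_maps : ∀ (l : List A) (u v : V), Wk src tgt u v l →
    u :: l.map tgt = l.map src ++ [v]
  | [], u, v, h => by
    have h : u = v := h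
    subst h
    rfl
  | a :: l, u, v, h => by
    obtain ⟨h1, h2⟩ := h
    have h3 := wk_maps l (tgt a) v h2
    simp only [List.map_cons, List.cons_append]
    rw [← h3, h1]

theorem wk_cycle : ∀ (l : List A) (u v : V), Wk src tgt u v l → ¬(l.map src).Nodup →
    ∃ (l₁ l₂ l₃ : List A) (m : V), l = l₁ ++ (l₂ ++ l₃) ∧ l₂ ≠ [] ∧ l₃ ≠ [] ∧
      Wk src tgt u m l₁ ∧ Wk src tgt m m l₂ ∧ Wk src tgt m v l₃
  | [], u, v, _, hn => by simp at hn
  | a :: l, u, v, h, hn => by
    obtain ⟨h1, h2⟩ := h
    rw [List.map_cons, List.nodup_cons, not_and_or, not_not] at hn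
    rcases hn with hn | hn
    · obtain ⟨b, hb, hab⟩ := List.mem_map.1 hn
      obtain ⟨q, r, hqr⟩ := List.append_of_mem hb
      rw [hqr] at h2
      obtain ⟨m, h3, h4⟩ := (wk_append src tgt q (b :: r) (tgt a) v).1 h2
      have h5 : m = u := by rw [← h4.1, hab, h1]
      subst h5
      refine ⟨[], a :: q, b :: r, m, ?_, by simp, by simp, rfl, ⟨h1, h3⟩, h4⟩
      rw [hqr]
      rfl
    · obtain ⟨l₁, l₂, l₃, m, e1, e2, e3, e4, e5, e6⟩ := wk_cycle l (tgt a) v h2 hn
      exact ⟨a :: l₁, l₂, l₃, m, by rw [e1]; rfl, e2, e3, ⟨h1, e4⟩, e5, e6⟩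

variable (c : A → ℝ)

theorem wk_closed (H : ∀ C : Finset A, C.val.map src = C.val.map tgt → 0 ≤ ∑ a ∈ C, c a) :
    ∀ (n : ℕ) (l : List A) (u : V), l.length = n → Wk src tgt u u l → 0 ≤ (l.map c).sum := by
  intro n
  induction n using Nat.strong_induction_on with
  | _ n ih =>
    intro l u hl h
    by_cases hn : (l.map src).Nodup
    · have hnl : l.Nodup := List.Nodup.of_map src hn
      have h1 := H ⟨(l : Multiset A), hnl⟩ (by
        show Multiset.map src (l : Multiset A) = Multiset.map tgt (l : Multiset A)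
        rw [Multiset.map_coe, Multiset.map_coe, Multiset.coe_eq_coe]
        have h2 := wk_maps src tgt l u u h
        have h3 : (u :: l.map tgt).Perm (u :: l.map src) := by
          rw [h2]
          exact List.perm_append_singleton u (l.map src)
        exact (List.Perm.cons_inv h3).symm)
      have h4 : ∑ a ∈ (⟨(l : Multiset A), hnl⟩ : Finset A), c a = (l.map c).sum := by
        show (Multiset.map c (l : Multiset A)).sum = _
        rw [Multiset.map_coe, Multiset.sum_coe]
      rw [← h4]
      exact h1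
    · obtain ⟨l₁, l₂, l₃, m, e1, e2, e3, e4, e5, e6⟩ := wk_cycle src tgt l u u h hn
      have n2 : 0 < l₂.length := List.length_pos_iff.2 e2
      have n3 : 0 < l₃.length := List.length_pos_iff.2 e3
      have hlen : l.length = l₁.length + (l₂.length + l₃.length) := by
        rw [e1, List.length_append, List.length_append]
      have h1 := ih l₂.length (by omega) l₂ m rfl e5
      have h2 := ih (l₁ ++ l₃).length (by rw [List.length_append]; omega) (l₁ ++ l₃) u rfl
        ((wk_append src tgt l₁ l₃ u u).2 ⟨m, e4, e6⟩)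
      rw [List.map_append, List.sum_append] at h2
      rw [e1, List.map_append, List.map_append, List.sum_append, List.sum_append]
      linarith

end walks

/-- potentials -/
theorem exists_potential {A : Type} [Finite A] (N : ℕ) (src tgt : A → ℕ) (c : A → ℝ)
    (hs : ∀ a, src a ≤ N)
    (H : ∀ C : Finset A, C.val.map src = C.val.map tgt → 0 ≤ ∑ a ∈ C, c a) :
    ∃ Φ : ℕ → ℝ, ∀ a, Φ (tgt a) ≤ Φ (src a) + c a := by
  have hex : ∀ v : ℕ, ∃ l₀ ∈ {l : List A | l.length ≤ N + 1 ∧ ∃ u, Wk src tgt u v l},
      ∀ l ∈ {l : List A | l.length ≤ N + 1 ∧ ∃ u, Wk src tgt u v l},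
        (l₀.map c).sum ≤ (l.map c).sum := by
    intro v
    refine Set.exists_min_image _ _ ((List.finite_length_le A (N + 1)).subset ?_) ?_
    · rintro l ⟨h, _⟩
      exact h
    · exact ⟨[], by simp, v, rfl⟩
  choose L hL hmin using hex
  refine ⟨fun v => ((L v).map c).sum, fun a => ?_⟩
  obtain ⟨h1, u, h2⟩ := hL (src a)
  have h3 : Wk src tgt u (tgt a) (L (src a) ++ [a]) :=
    (wk_append src tgt _ _ _ _).2 ⟨src a, h2, rfl, rfl⟩
  have h4 : ((L (src a) ++ [a]).map c).sum = ((L (src a)).map c).sum + c a := by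
    rw [List.map_append, List.sum_append]
    simp
  show ((L (tgt a)).map c).sum ≤ ((L (src a)).map c).sum + c a
  rw [← h4]
  by_cases hlen : (L (src a) ++ [a]).length ≤ N + 1
  · exact hmin (tgt a) _ ⟨hlen, u, h3⟩
  · have hn : ¬((L (src a) ++ [a]).map src).Nodup := by
      intro hn
      apply hlen
      have h5 : ((L (src a) ++ [a]).map src).toFinset ⊆ range (N + 1) := by
        intro x hx
        rw [List.mem_toFinset, List.mem_map] at hx
        obtain ⟨b, _, rfl⟩ := hx
        rw [mem_range]
        have := hs b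
        omega
      have h6 := Finset.card_le_card h5
      rw [List.toFinset_card_of_nodup hn, card_range, List.length_map] at h6
      exact h6
    obtain ⟨l₁, l₂, l₃, m, e1, e2, e3, e4, e5, e6⟩ := wk_cycle src tgt _ u (tgt a) h3 hn
    have n2 : 0 < l₂.length := List.length_pos_iff.2 e2
    have hl : (L (src a) ++ [a]).length = l₁.length + (l₂.length + l₃.length) := by
      rw [e1, List.length_append, List.length_append]
    rw [List.length_append, List.length_singleton] at hl
    have h7 := wk_closed src tgt c H _ l₂ m rfl e5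
    have h8 := hmin (tgt a) (l₁ ++ l₃) ⟨by
      rw [List.length_append]
      have : (L (src a)).length ≤ N + 1 := h1
      omega, u, (wk_append src tgt l₁ l₃ u (tgt a)).2 ⟨m, e4, e6⟩⟩
    rw [e1]
    rw [List.map_append, List.sum_append] at h8
    rw [List.map_append, List.map_append, List.sum_append, List.sum_append]
    linarith

section residual

variable {ι : Type} [Fintype ι] [DecidableEq ι] (N Q : ℕ) (s e : ι → ℕ) (p : ι → ℝ)
  (F : Finset ι)

/-- the arcs of the residual graph: intervals, back steps, and forward steps where there is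
surplus -/
abbrev Arc : Type := ι ⊕ (Fin N ⊕ {x : Fin N // Q < cov s e F x.1})

/-- the source of an arc -/
def src : Arc N Q s e F → ℕ
  | Sum.inl i => if i ∈ F then e i else s i
  | Sum.inr (Sum.inl x) => x.1 + 1
  | Sum.inr (Sum.inr x) => x.1.1

/-- the target of an arc -/
def tgt : Arc N Q s e F → ℕ
  | Sum.inl i => if i ∈ F then s i else e i
  | Sum.inr (Sum.inl x) => x.1
  | Sum.inr (Sum.inr x) => x.1.1 + 1

/-- the cost of an arc -/
def cst : Arc N Q s e F → ℝ
  | Sum.inl i => if i ∈ F then -p i else p i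
  | Sum.inr _ => 0

theorem sum_arc (C : Finset (Arc N Q s e F)) (f : Arc N Q s e F → ℝ) :
    ∑ a ∈ C, f a = (∑ i : ι, if Sum.inl i ∈ C then f (Sum.inl i) else 0) +
      ((∑ x : Fin N, if Sum.inr (Sum.inl x) ∈ C then f (Sum.inr (Sum.inl x)) else 0) +
      ∑ x : {x : Fin N // Q < cov s e F x.1},
        if Sum.inr (Sum.inr x) ∈ C then f (Sum.inr (Sum.inr x)) else 0) := by
  rw [← Fintype.sum_sum_type
    (fun y => if Sum.inr y ∈ C then f (Sum.inr y) else 0),
    ← Fintype.sum_sum_type (fun a => if a ∈ C then f a else 0), Finset.sum_ite_mem]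
  simp

/-- the family after the change along `C` -/
def flip (C : Finset (Arc N Q s e F)) : Finset ι :=
  univ.filter fun i => (i ∈ F ∧ Sum.inl i ∉ C) ∨ (i ∉ F ∧ Sum.inl i ∈ C)

theorem sum_flip (C : Finset (Arc N Q s e F)) (f : ι → ℝ) :
    ∑ i ∈ flip N Q s e F C, f i = ∑ i ∈ F, f i +
      ∑ i : ι, if Sum.inl i ∈ C then (if i ∈ F then -f i else f i) else 0 := by
  unfold flip
  have h1 : ∑ i ∈ F, f i = ∑ i : ι, if i ∈ F then f i else 0 := by
    rw [Finset.sum_ite_mem]
    simp
  rw [Finset.sum_filter, h1, ← Finset.sum_add_distrib]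
  refine Finset.sum_congr rfl fun i _ => ?_
  by_cases hF : i ∈ F <;> by_cases hC : Sum.inl i ∈ C <;> simp [hF, hC]

theorem balance (C : Finset (Arc N Q s e F))
    (hC : C.val.map (src N Q s e F) = C.val.map (tgt N Q s e F)) (g : ℕ → ℝ) :
    ∑ a ∈ C, (g (src N Q s e F a) - g (tgt N Q s e F a)) = 0 := by
  rw [Finset.sum_sub_distrib, sub_eq_zero]
  have h1 : ∑ a ∈ C, g (src N Q s e F a) = ((C.val.map (src N Q s e F)).map g).sum := by
    rw [Multiset.map_map]
    rfl
  have h2 : ∑ a ∈ C, g (tgt N Q s e F a) = ((C.val.map (tgt N Q s e F)).map g).sum := by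
    rw [Multiset.map_map]
    rfl
  rw [h1, h2, hC]

theorem cov_flip (hse : ∀ i, s i < e i ∧ e i ≤ N) (C : Finset (Arc N Q s e F))
    (hC : C.val.map (src N Q s e F) = C.val.map (tgt N Q s e F))
    (hF : ∀ x < N, Q ≤ cov s e F x) (x : ℕ) (hx : x < N) :
    Q ≤ cov s e (flip N Q s e F C) x := by
  classical
  have hb := balance N Q s e F C hC (fun y => if y ≤ x then (1 : ℝ) else 0)
  rw [sum_arc] at hb
  have h1 : ∀ i : ι, (if (Sum.inl i : Arc N Q s e F) ∈ C then
      ((if src N Q s e F (Sum.inl i) ≤ x then (1 : ℝ) else 0) -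
        (if tgt N Q s e F (Sum.inl i) ≤ x then (1 : ℝ) else 0)) else 0) =
      if (Sum.inl i : Arc N Q s e F) ∈ C then
        (if i ∈ F then -(if s i ≤ x ∧ x < e i then (1 : ℝ) else 0) else
          (if s i ≤ x ∧ x < e i then (1 : ℝ) else 0)) else 0 := by
    intro i
    by_cases h : (Sum.inl i : Arc N Q s e F) ∈ C
    · rw [if_pos h, if_pos h]
      have := (hse i).1
      by_cases hi : i ∈ F
      · simp only [src, tgt, if_pos hi]
        by_cases h2 : s i ≤ x
        · by_cases h3 : x < e i
          · rw [if_neg (by omega), if_pos h2, if_pos ⟨h2, h3⟩]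
            ring
          · rw [if_pos (by omega), if_pos h2, if_neg (by omega)]
            ring
        · rw [if_neg (by omega), if_neg h2, if_neg (by omega)]
          ring
      · simp only [src, tgt, if_neg hi]
        by_cases h2 : s i ≤ x
        · by_cases h3 : x < e i
          · rw [if_pos h2, if_neg (by omega), if_pos ⟨h2, h3⟩]
            ring
          · rw [if_pos h2, if_pos (by omega), if_neg (by omega)]
            ring
        · rw [if_neg h2, if_neg (by omega), if_neg (by omega)]
          ring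
    · rw [if_neg h, if_neg h]
  rw [Finset.sum_congr rfl fun i _ => h1 i] at hb
  have h2 : ∑ y : Fin N, (if (Sum.inr (Sum.inl y) : Arc N Q s e F) ∈ C then
      ((if src N Q s e F (Sum.inr (Sum.inl y)) ≤ x then (1 : ℝ) else 0) -
        (if tgt N Q s e F (Sum.inr (Sum.inl y)) ≤ x then (1 : ℝ) else 0)) else 0) ≤ 0 := by
    refine Finset.sum_nonpos fun y _ => ?_
    split_ifs with h3 h4 h5 h6
    · simp
    · exfalso
      simp only [src, tgt] at h4 h5
      omega
    · simp
    · simp
    · exact le_rfl
  have h3 : ∑ y : {y : Fin N // Q < cov s e F y.1},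
      (if (Sum.inr (Sum.inr y) : Arc N Q s e F) ∈ C then
      ((if src N Q s e F (Sum.inr (Sum.inr y)) ≤ x then (1 : ℝ) else 0) -
        (if tgt N Q s e F (Sum.inr (Sum.inr y)) ≤ x then (1 : ℝ) else 0)) else 0) ≤
      if Q < cov s e F x then 1 else 0 := by
    have h4 : ∀ y : {y : Fin N // Q < cov s e F y.1},
        (if (Sum.inr (Sum.inr y) : Arc N Q s e F) ∈ C then
        ((if src N Q s e F (Sum.inr (Sum.inr y)) ≤ x then (1 : ℝ) else 0) -
          (if tgt N Q s e F (Sum.inr (Sum.inr y)) ≤ x then (1 : ℝ) else 0)) else 0) ≤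
        if y.1.1 = x then 1 else 0 := by
      intro y
      simp only [src, tgt]
      by_cases h5 : (Sum.inr (Sum.inr y) : Arc N Q s e F) ∈ C
      · rw [if_pos h5]
        by_cases h6 : y.1.1 = x
        · rw [if_pos h6, if_pos (by omega), if_neg (by omega)]
          simp
        · rw [if_neg h6]
          by_cases h7 : y.1.1 ≤ x
          · rw [if_pos h7, if_pos (by omega)]
            simp
          · rw [if_neg h7, if_neg (by omega)]
            simp
      · rw [if_neg h5]
        split_ifs <;> simp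
    refine (Finset.sum_le_sum fun y _ => h4 y).trans ?_
    by_cases h5 : Q < cov s e F x
    · rw [if_pos h5, Finset.sum_eq_single (⟨⟨x, hx⟩, h5⟩ : {y : Fin N // Q < cov s e F y.1})]
      · simp
      · intro y _ hy
        rw [if_neg]
        intro h6
        apply hy
        apply Subtype.ext
        apply Fin.ext
        exact h6
      · intro h
        exact absurd (Finset.mem_univ _) h
    · rw [if_neg h5]
      refine Finset.sum_nonpos fun y _ => ?_
      rw [if_neg]
      intro h6
      apply h5
      have := y.2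
      rw [h6] at this
      exact this
  have h4 : (cov s e (flip N Q s e F C) x : ℝ) = cov s e F x +
      ∑ i : ι, if (Sum.inl i : Arc N Q s e F) ∈ C then
        (if i ∈ F then -(if s i ≤ x ∧ x < e i then (1 : ℝ) else 0) else
          (if s i ≤ x ∧ x < e i then (1 : ℝ) else 0)) else 0 := by
    rw [cov_cast, cov_cast, sum_flip]
  have h5 : (Q : ℝ) ≤ cov s e (flip N Q s e F C) x := by
    by_cases h6 : Q < cov s e F x
    · rw [if_pos h6] at h3
      have h7 : (Q : ℝ) + 1 ≤ cov s e F x := by exact_mod_cast h6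
      rw [h4]
      linarith
    · rw [if_neg h6] at h3
      have h7 : (Q : ℝ) ≤ cov s e F x := by exact_mod_cast hF x hx
      rw [h4]
      linarith
  exact_mod_cast h5

theorem cost_flip (C : Finset (Arc N Q s e F)) :
    ∑ i ∈ flip N Q s e F C, p i = ∑ i ∈ F, p i + ∑ a ∈ C, cst N Q s e p F a := by
  rw [sum_flip, sum_arc]
  simp [cst]

end residual

theorem pf_DUAL : T_DUAL := by
  classical
  intro ι _ _ N Q s e p hse _ hQ
  obtain ⟨F, hF, hmin⟩ := Finset.exists_min_image
    ((univ : Finset (Finset ι)).filter fun F => ∀ x < N, Q ≤ cov s e F x)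
    (fun F => ∑ i ∈ F, p i) ⟨univ, by simpa using hQ⟩
  rw [Finset.mem_filter] at hF
  obtain ⟨Φ, hΦ⟩ := exists_potential (A := Arc N Q s e F) N (src N Q s e F) (tgt N Q s e F)
    (cst N Q s e p F) (by
      rintro (i | x | x)
      · simp only [src]
        have := hse i
        split_ifs <;> omega
      · simp only [src]
        have := x.2
        omega
      · simp only [src]
        have := x.1.2
        omega) (by
      intro C hC
      have h1 := hmin (flip N Q s e F C) (by
        rw [Finset.mem_filter]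
        exact ⟨Finset.mem_univ _, cov_flip N Q s e F hse C hC hF.2⟩)
      rw [cost_flip] at h1
      linarith)
  have hw0 : ∀ x < N, 0 ≤ Φ (x + 1) - Φ x := by
    intro x hx
    have h := hΦ (Sum.inr (Sum.inl ⟨x, hx⟩))
    simp only [src, tgt, cst, add_zero] at h
    linarith
  have hwt : ∀ a b, a ≤ b → b ≤ N →
      wt (fun x => if x < N then Φ (x + 1) - Φ x else 0) a b = Φ b - Φ a := by
    intro a b hab hb
    induction b, hab using Nat.le_induction with
    | base => rw [wt_self, sub_self]
    | succ b hab ih =>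
      rw [← wt_add _ hab (Nat.le_succ b), ih (by omega)]
      have := wt_single (fun x => if x < N then Φ (x + 1) - Φ x else 0) (c := b + 1)
        (by omega)
      simp only [Nat.add_sub_cancel] at this
      rw [this, if_pos (by omega)]
      ring
  refine ⟨F, fun x => if x < N then Φ (x + 1) - Φ x else 0, ?_, hF.2, ?_, ?_, ?_⟩
  · intro x
    show 0 ≤ if x < N then Φ (x + 1) - Φ x else 0
    split_ifs with h
    · exact hw0 x h
    · exact le_rfl
  · intro x hx h
    by_contra hne
    have hlt : Q < cov s e F x := lt_of_le_of_ne (hF.2 x hx) (Ne.symm hne)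
    have h1 := hΦ (Sum.inr (Sum.inr ⟨⟨x, hx⟩, hlt⟩))
    simp only [src, tgt, cst, add_zero] at h1
    simp only [if_pos hx] at h
    linarith
  · intro i hi
    rw [hwt _ _ (hse i).1.le (hse i).2]
    have h1 := hΦ (Sum.inl i)
    simp only [src, tgt, cst, if_pos hi] at h1
    linarith
  · intro i hi
    rw [hwt _ _ (hse i).1.le (hse i).2]
    have h1 := hΦ (Sum.inl i)
    simp only [src, tgt, cst, if_neg hi] at h1
    linarith

end Pool.Agent.H66.SLP
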