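import Pool.Agent.H66.SLP.Easy

/-!
# LP and RANK
-/

set_option autoImplicit false

open Finset

namespace Pool.Agent.H66.SLP

theorem cov_sub {ι : Type} (s e : ι → ℕ) (F : Finset ι) (x : ℕ) :
    cov (fun i : {i // i ∈ F} => s i.1) (fun i => e i.1) univ x = cov s e F x := by
  rw [cov_eq, cov_eq]
  exact Finset.sum_coe_sort F (fun i => if s i ≤ x ∧ x < e i then 1 else 0)

theorem pf_LP (h1 : T_DUAL) (h2 : T_TRIM) (h3 : T_WEAK) : T_LP := by
  classical
  intro ι _ _ N Q s e p hse hp hQ
  obtain ⟨F, w, hw, hF, hex, hin, hout⟩ := h1 ι N Q s e p hse (fun i => (hp i).le) hQ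
  obtain ⟨s', hs1, hs2, hs3⟩ := h2 {i // i ∈ F} 0 N Q (fun i => s i.1) (fun i => e i.1)
    (fun i => (hse i.1).1) (fun x _ hx => by rw [cov_sub]; exact hF x hx)
  have hzero : ∀ (i : {i // i ∈ F}) x, s i.1 ≤ x → x < s' i → x < e i.1 → w x = 0 := by
    intro i x a1 a2 a3
    rcases hs3 i x a1 a2 a3 with h | h
    · omega
    · rw [cov_sub] at h
      have hx : x < N := lt_of_lt_of_le a3 (hse i.1).2
      rcases (hw x).lt_or_eq with h4 | h4
      · have := hex x hx h4
        omega
      · exact h4.symm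
  have hlt : ∀ i : {i // i ∈ F}, s' i < e i.1 := by
    intro i
    by_contra h
    have h4 := hin i.1 i.2
    have h5 : wt w (s i.1) (e i.1) = 0 := by
      unfold wt
      refine Finset.sum_eq_zero fun x hx => ?_
      rw [mem_Ico] at hx
      exact hzero i x hx.1 (by omega) hx.2
    have := hp i.1
    linarith
  have hwe : ∀ i : {i // i ∈ F}, wt w (s' i) (e i.1) = wt w (s i.1) (e i.1) := by
    intro i
    rw [← wt_add w (hs1 i) (hlt i).le]
    have : wt w (s i.1) (s' i) = 0 := by
      unfold wt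
      refine Finset.sum_eq_zero fun x hx => ?_
      rw [mem_Ico] at hx
      exact hzero i x hx.1 hx.2 (hx.2.trans (hlt i))
    rw [this, zero_add]
  refine ⟨F, w, fun i => if h : i ∈ F then s' ⟨i, h⟩ else s i, hw, ?_, ?_, ?_⟩
  · intro i hi
    simp only [dif_pos hi]
    refine ⟨hs1 ⟨i, hi⟩, hlt ⟨i, hi⟩, hwe ⟨i, hi⟩, ?_⟩
    rw [hwe ⟨i, hi⟩]
    exact hin i hi
  · intro x hx
    rw [← hs2 x (Nat.zero_le x) hx, ← cov_sub]
    rw [cov_eq, cov_eq]
    refine Finset.sum_congr rfl fun i _ => ?_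
    simp only [dif_pos i.2]
  · intro M F₀ hM
    exact h3 ι N Q M s e p F F₀ w hse hw hex hin hout hM

theorem prefix_count {F : ℕ} (g : Fin F → ℕ) (hg : Monotone g) (x : ℕ) (j : Fin F) :
    g j ≤ x ↔ j.1 < (univ.filter fun i => g i ≤ x).card := by
  constructor
  · intro h
    have h1 : Iic j ⊆ univ.filter fun i => g i ≤ x := by
      intro i hi
      rw [Finset.mem_filter]
      exact ⟨mem_univ _, (hg (mem_Iic.1 hi)).trans h⟩
    have h2 := card_le_card h1
    rw [Fin.card_Iic] at h2
    omega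
  · intro h
    by_contra h0
    have h1 : (univ.filter fun i => g i ≤ x) ⊆ Iio j := by
      intro i hi
      rw [Finset.mem_filter] at hi
      rw [mem_Iio]
      by_contra h2
      have := hg (not_lt.1 h2)
      omega
    have h2 := card_le_card h1
    rw [Fin.card_Iio] at h2
    omega

theorem exists_sorted (ι : Type) [Fintype ι] (s : ι → ℕ) :
    ∃ f : Fin (Fintype.card ι) ≃ ι, Monotone fun j => s (f j) := by
  classical
  exact ⟨(Tuple.sort (s ∘ (Fintype.equivFin ι).symm)).trans (Fintype.equivFin ι).symm,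
    Tuple.monotone_sort (s ∘ (Fintype.equivFin ι).symm)⟩

theorem sorted_count {ι : Type} [Fintype ι] (s : ι → ℕ) (f : Fin (Fintype.card ι) ≃ ι)
    (hf : Monotone fun j => s (f j)) (x : ℕ) (j : Fin (Fintype.card ι)) :
    s (f j) ≤ x ↔ j.1 < (univ.filter fun i => s i ≤ x).card := by
  rw [prefix_count (fun j => s (f j)) hf x j]
  have : (univ.filter fun i => s (f i) ≤ x).card = (univ.filter fun i => s i ≤ x).card := by
    rw [Finset.card_filter, Finset.card_filter]
    exact Equiv.sum_comp f (fun i => if s i ≤ x then 1 else 0)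
  rw [this]

theorem count_cov {ι : Type} [Fintype ι] (s e : ι → ℕ) (h : ∀ i, s i < e i) (x : ℕ) :
    (univ.filter fun i => s i ≤ x).card =
      (univ.filter fun i => e i ≤ x).card + cov s e univ x := by
  classical
  unfold cov
  rw [← Finset.card_union_of_disjoint]
  · congr 1
    ext i
    simp only [Finset.mem_filter, Finset.mem_univ, true_and, Finset.mem_union]
    have := h i
    omega
  · rw [Finset.disjoint_left]
    intro i hi
    simp only [Finset.mem_filter, Finset.mem_univ, true_and] at hi ⊢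
    omega

theorem pf_RANK : T_RANK := by
  classical
  intro Y ι _ _ z N Q s e w hQ hN hse hw hcov hwt hsep
  obtain ⟨fB, hB⟩ := exists_sorted ι s
  obtain ⟨fA, hA⟩ := exists_sorted ι e
  have hcount : ∀ x < N, (univ.filter fun i => s i ≤ x).card =
      (univ.filter fun i => e i ≤ x).card + Q := by
    intro x hx
    rw [count_cov s e (fun i => (hse i).1) x, hcov x hx]
  have hle : ∀ x, (univ.filter fun i => s i ≤ x).card ≤ Fintype.card ι :=
    fun x => Finset.card_le_univ _
  -- the key fact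
  have key1 : ∀ (a : Fin (Fintype.card ι)) (h : Q + a.1 < Fintype.card ι),
      s (fB ⟨Q + a.1, h⟩) = e (fA a) := by
    intro a h
    have h1 : ∀ x < N, (s (fB ⟨Q + a.1, h⟩) ≤ x ↔ e (fA a) ≤ x) := by
      intro x hx
      rw [sorted_count s fB hB, sorted_count e fA hA, hcount x hx]
      show Q + a.1 < _ ↔ _
      omega
    have hS : s (fB ⟨Q + a.1, h⟩) < N := by
      have := hse (fB ⟨Q + a.1, h⟩)
      omega
    have h2 := (h1 _ hS).1 le_rfl
    have h3 := (h1 (e (fA a)) (by omega)).2 le_rfl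
    omega
  have key2 : ∀ a : Fin (Fintype.card ι), Fintype.card ι ≤ Q + a.1 → e (fA a) = N := by
    intro a h
    by_contra hne
    have hlt : e (fA a) < N := lt_of_le_of_ne (hse _).2 hne
    have h1 := (sorted_count e fA hA (e (fA a)) a).1 le_rfl
    have h2 := hcount _ hlt
    have h3 := hle (e (fA a))
    omega
  have hQF : Q ≤ Fintype.card ι := by
    have h1 := hcount 0 (by omega)
    have h2 := hle 0
    omega
  have hfirst : ∀ j : Fin (Fintype.card ι), j.1 < Q → s (fB j) = 0 := by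
    intro j hj
    have h1 := hcount 0 (by omega)
    have h2 : (univ.filter fun i => e i ≤ 0) = ∅ := by
      ext i
      simp only [Finset.mem_filter, Finset.mem_univ, true_and, Finset.notMem_empty, iff_false]
      have := (hse i).1
      omega
    rw [h2, Finset.card_empty, zero_add] at h1
    have h3 := (sorted_count s fB hB 0 j).2 (by omega)
    omega
  have hpos : 0 < Fintype.card ι := by omega
  let f : ℕ → ι := fun j => if h : j < Fintype.card ι then fB ⟨j, h⟩ else fB ⟨0, hpos⟩
  have hf : ∀ j (h : j < Fintype.card ι), f j = fB ⟨j, h⟩ := fun j h => dif_pos h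
  let π : ℕ → ℕ := fun j => if h : j < Fintype.card ι then
    Q + (fA.symm (fB ⟨j, h⟩)).1 else 0
  have hπ : ∀ j (h : j < Fintype.card ι), π j = Q + (fA.symm (fB ⟨j, h⟩)).1 :=
    fun j h => dif_pos h
  let τ : ℕ → ℝ := fun j => if h : j < Fintype.card ι then wt w 0 (s (fB ⟨j, h⟩))
    else wt w 0 N
  have hτ : ∀ j (h : j < Fintype.card ι), τ j = wt w 0 (s (fB ⟨j, h⟩)) :=
    fun j h => dif_pos h
  have hτN : ∀ j, Fintype.card ι ≤ j → τ j = wt w 0 N := fun j h => dif_neg (by omega)
  have hτπ : ∀ j (h : j < Fintype.card ι), τ (π j) = wt w 0 (e (fB ⟨j, h⟩)) := by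
    intro j h
    rw [hπ j h]
    have h1 : fA (fA.symm (fB ⟨j, h⟩)) = fB ⟨j, h⟩ := Equiv.apply_symm_apply _ _
    by_cases h2 : Q + (fA.symm (fB ⟨j, h⟩)).1 < Fintype.card ι
    · rw [hτ _ h2, key1 _ h2, h1]
    · rw [hτN _ (by omega)]
      have h3 := key2 (fA.symm (fB ⟨j, h⟩)) (by omega)
      rw [h1] at h3
      rw [h3]
  have hlen : ∀ j (h : j < Fintype.card ι), τ (π j) - τ j =
      wt w (s (fB ⟨j, h⟩)) (e (fB ⟨j, h⟩)) := by
    intro j h
    rw [hτπ j h, hτ j h, ← wt_add w (Nat.zero_le _) (hse (fB ⟨j, h⟩)).1.le]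
    ring
  have hmono : Monotone τ := by
    intro i j hij
    by_cases hj : j < Fintype.card ι
    · rw [hτ i (by omega), hτ j hj]
      exact wt_mono hw (hB (show (⟨i, by omega⟩ : Fin _) ≤ ⟨j, hj⟩ from hij))
    · rw [hτN j (by omega)]
      by_cases hi : i < Fintype.card ι
      · rw [hτ i hi]
        refine wt_mono hw ?_
        have := hse (fB ⟨i, hi⟩)
        omega
      · rw [hτN i (by omega)]
  refine ⟨⟨Fintype.card ι, Q, wt w 0 N, π, τ, fun j => z (f j), hQ, ?_, ?_, ?_, hmono, ?_,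
    hτN, ?_, ?_, ?_⟩, f, rfl, rfl, ?_, ?_, ?_, ?_⟩
  · intro i hi j hj hij
    rw [hπ i hi, hπ j hj] at hij
    have h1 : fA.symm (fB ⟨i, hi⟩) = fA.symm (fB ⟨j, hj⟩) := Fin.ext (by omega)
    have h2 := fB.injective (fA.symm.injective h1)
    exact congrArg Fin.val h2
  · intro i hi
    rw [hπ i hi]
    omega
  · intro i hi
    rw [hπ i hi]
    have := (fA.symm (fB ⟨i, hi⟩)).2
    omega
  · intro j hj
    rw [hτ j (by omega), hfirst ⟨j, by omega⟩ hj, wt_self]
  · intro i hi
    rw [hlen i hi]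
    exact (hwt _).1
  · intro i hi
    rw [hlen i hi]
    exact (hwt _).2
  · intro i hi j hj hij hz
    have hz : z (f i) = z (f j) := hz
    rw [hf i hi, hf j hj] at hz
    have hne : fB ⟨i, hi⟩ ≠ fB ⟨j, hj⟩ := by
      intro h
      exact hij (congrArg Fin.val (fB.injective h))
    rw [hτπ i hi, hτπ j hj, hτ i hi, hτ j hj]
    rcases hsep _ _ hne hz with h | h
    · exact Or.inl (wt_mono hw h)
    · exact Or.inr (wt_mono hw h)
  · intro i hi
    refine ⟨rfl, ?_, ?_⟩
    · show τ i = _
      rw [hτ i hi, hf i hi]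
    · show τ (π i) = _
      rw [hτπ i hi, hf i hi]
  · intro i hi
    have hi : i < Q := hi
    rw [hf i (by omega)]
    exact hfirst ⟨i, by omega⟩ hi
  · intro i hi h
    have h : Fintype.card ι ≤ π i := h
    have hi : i < Fintype.card ι := hi
    rw [hπ i hi] at h
    rw [hf i hi]
    have := key2 _ h
    rw [Equiv.apply_symm_apply] at this
    exact this
  · intro i hi j hj h
    have hi : i < Fintype.card ι := hi
    have hj : j < Fintype.card ι := hj
    have h : j ≤ π i := h
    rw [hf i hi, hf j hj]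
    have h1 : fA (fA.symm (fB ⟨i, hi⟩)) = fB ⟨i, hi⟩ := Equiv.apply_symm_apply _ _
    by_cases h2 : Q + (fA.symm (fB ⟨i, hi⟩)).1 < Fintype.card ι
    · have h3 := key1 _ h2
      rw [h1] at h3
      rw [← h3]
      refine hB ?_
      rw [hπ i hi] at h
      exact h
    · have h3 := key2 _ (not_lt.1 h2)
      rw [h1] at h3
      rw [h3]
      have := hse (fB ⟨j, hj⟩)
      omega

end Pool.Agent.H66.SLP
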