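import Mathlib

/-!
# Words with distinct letters which are not subwords: linear programming, rank systems

The line consists of cells `0, 1, 2, …`; the cell `x` is the state of the greedy embedding after `x`
letters of the word `u` have been read. An interval with the letter `z` covers the cells
`s, …, e - 1`; if the letter `z` does not occur inside, then the greedy embedding goes from any
state `≥ s` with the letter `z` to a state `≥ e`.
-/

set_option autoImplicit false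

open Finset

namespace Pool.Agent.H66.SLP

/-- the number of the intervals of the family `F` which cover the cell `x` -/
def cov {ι : Type} (s e : ι → ℕ) (F : Finset ι) (x : ℕ) : ℕ :=
  (F.filter fun i => s i ≤ x ∧ x < e i).card

/-- the weight of the cells `a, …, b - 1` -/
def wt (w : ℕ → ℝ) (a b : ℕ) : ℝ := ∑ x ∈ Ico a b, w x

/-- DUAL: the cheapest family which covers every cell at least `Q` times, and a dual measure. -/
def T_DUAL : Prop := ∀ (ι : Type) [Fintype ι] [DecidableEq ι] (N Q : ℕ) (s e : ι → ℕ)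
  (p : ι → ℝ), (∀ i, s i < e i ∧ e i ≤ N) → (∀ i, 0 ≤ p i) →
  (∀ x < N, Q ≤ cov s e univ x) →
  ∃ (F : Finset ι) (w : ℕ → ℝ), (∀ x, 0 ≤ w x) ∧ (∀ x < N, Q ≤ cov s e F x) ∧
    (∀ x < N, 0 < w x → cov s e F x = Q) ∧ (∀ i ∈ F, p i ≤ wt w (s i) (e i)) ∧
    (∀ i ∉ F, wt w (s i) (e i) ≤ p i)

/-- WEAK: comparison with another family `F₀`, which covers every cell at least `M` times. -/
def T_WEAK : Prop := ∀ (ι : Type) [Fintype ι] [DecidableEq ι] (N Q M : ℕ) (s e : ι → ℕ)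
  (p : ι → ℝ) (F F₀ : Finset ι) (w : ℕ → ℝ), (∀ i, s i < e i ∧ e i ≤ N) → (∀ x, 0 ≤ w x) →
  (∀ x < N, 0 < w x → cov s e F x = Q) → (∀ i ∈ F, p i ≤ wt w (s i) (e i)) →
  (∀ i ∉ F, wt w (s i) (e i) ≤ p i) → (∀ x < N, M ≤ cov s e F₀ x) →
  ((M : ℝ) - Q) * wt w 0 N ≤ ∑ i ∈ F₀, p i - ∑ i ∈ F, p i

/-- TRIM: exact coverage of the cells of `[α, β)` by delayed starts. -/
def T_TRIM : Prop := ∀ (ι : Type) [Fintype ι] [DecidableEq ι] (α β Q : ℕ) (s e : ι → ℕ),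
  (∀ i, s i < e i) → (∀ x, α ≤ x → x < β → Q ≤ cov s e univ x) →
  ∃ s' : ι → ℕ, (∀ i, s i ≤ s' i) ∧
    (∀ x, α ≤ x → x < β → cov s' e univ x = Q) ∧
    (∀ i x, s i ≤ x → x < s' i → x < e i → x < α ∨ Q < cov s e univ x)

/-- CUTS: an interval is cut in pieces of weight between `p` and `2p + 1`. -/
def T_CUTS : Prop := ∀ (w : ℕ → ℝ) (p : ℝ) (a b : ℕ), (∀ x, 0 ≤ w x ∧ w x ≤ 1) → 0 < p →
  p ≤ wt w a b → ∃ (k : ℕ) (c : ℕ → ℕ), 1 ≤ k ∧ c 0 = a ∧ c k = b ∧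
    ∀ j < k, c j < c (j + 1) ∧ p ≤ wt w (c j) (c (j + 1)) ∧ wt w (c j) (c (j + 1)) ≤ 2 * p + 1

/-- A rank system: the intervals are numbered by their starts, from `0` to `F - 1`; the interval `i`
ends where the interval `π i` starts (at the end of the line, if `π i ≥ F`); `τ` is the time of the
starts. Every time is covered by exactly `Q` intervals. -/
structure RSys (Y : Type) where
  F : ℕ
  Q : ℕ
  W : ℝ
  π : ℕ → ℕ
  τ : ℕ → ℝ
  ℓ : ℕ → Y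
  Q_pos : 1 ≤ Q
  inj : ∀ i < F, ∀ j < F, π i = π j → i = j
  lo : ∀ i < F, Q ≤ π i
  hi : ∀ i < F, π i < F + Q
  mono : Monotone τ
  zero : ∀ j < Q, τ j = 0
  top : ∀ j, F ≤ j → τ j = W
  len_lo : ∀ i < F, 1 ≤ τ (π i) - τ i
  len_hi : ∀ i < F, τ (π i) - τ i ≤ 5
  sep : ∀ i < F, ∀ j < F, i ≠ j → ℓ i = ℓ j → τ (π i) ≤ τ j ∨ τ (π j) ≤ τ i

section paths

variable {Y : Type} (S : RSys Y)

/-- a path through the system: it starts with one of the first `Q` intervals, after the interval `i`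
comes one which starts not later than the end of `i`, and the last one goes to the end -/
def RSys.Path (l : List ℕ) : Prop :=
  (∀ i ∈ l, i < S.F) ∧ (∃ i ∈ l.head?, i < S.Q) ∧ l.IsChain (fun i j => j ≤ S.π i) ∧
    ∃ i ∈ l.getLast?, S.F ≤ S.π i

/-- the total overlap of a path -/
def RSys.ovl : List ℕ → ℝ
  | i :: j :: l => S.τ (S.π i) - S.τ j + RSys.ovl (j :: l)
  | _ => 0

end paths

/-- COST: the time lengths of the intervals of a path. -/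
def T_COST : Prop := ∀ (Y : Type) (S : RSys Y) (l : List ℕ), S.Path l →
  (l.map fun i => S.τ (S.π i) - S.τ i).sum = S.W + S.ovl l ∧ 0 ≤ S.ovl l

/-- RANK: a family with exact coverage is a rank system. -/
def T_RANK : Prop := ∀ (Y ι : Type) [Fintype ι] [DecidableEq ι] (z : ι → Y) (N Q : ℕ)
  (s e : ι → ℕ) (w : ℕ → ℝ), 1 ≤ Q → 1 ≤ N → (∀ i, s i < e i ∧ e i ≤ N) → (∀ x, 0 ≤ w x) →
  (∀ x < N, cov s e univ x = Q) → (∀ i, 1 ≤ wt w (s i) (e i) ∧ wt w (s i) (e i) ≤ 5) →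
  (∀ i j, i ≠ j → z i = z j → e i ≤ s j ∨ e j ≤ s i) →
  ∃ (S : RSys Y) (f : ℕ → ι), S.Q = Q ∧ S.W = wt w 0 N ∧
    (∀ i < S.F, S.ℓ i = z (f i) ∧ S.τ i = wt w 0 (s (f i)) ∧ S.τ (S.π i) = wt w 0 (e (f i))) ∧
    (∀ i < S.Q, s (f i) = 0) ∧ (∀ i < S.F, S.F ≤ S.π i → e (f i) = N) ∧
    (∀ i < S.F, ∀ j < S.F, j ≤ S.π i → s (f j) ≤ e (f i))

/-- LP: the combination of DUAL and TRIM: an optimal family with exact coverage. -/
def T_LP : Prop := ∀ (ι : Type) [Fintype ι] [DecidableEq ι] (N Q : ℕ) (s e : ι → ℕ)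
  (p : ι → ℝ), (∀ i, s i < e i ∧ e i ≤ N) → (∀ i, 0 < p i) →
  (∀ x < N, Q ≤ cov s e univ x) →
  ∃ (F : Finset ι) (w : ℕ → ℝ) (s' : ι → ℕ), (∀ x, 0 ≤ w x) ∧
    (∀ i ∈ F, s i ≤ s' i ∧ s' i < e i ∧ wt w (s' i) (e i) = wt w (s i) (e i) ∧
      p i ≤ wt w (s' i) (e i)) ∧
    (∀ x < N, cov s' e F x = Q) ∧
    ∀ (M : ℕ) (F₀ : Finset ι), (∀ x < N, M ≤ cov s e F₀ x) →
      ((M : ℝ) - Q) * wt w 0 N ≤ ∑ i ∈ F₀, p i - ∑ i ∈ F, p i

/-- REAL: a family of gaps of the word `u` with exact coverage of the cells of `[α, β)` is realized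
by a rank system; the gaps over the boundaries are lengthened by time 2. -/
def T_REAL : Prop := ∀ (Y : Type) (u : List Y) (p : Y → ℝ),
  (∀ y, 1 ≤ p y ∧ p y ≤ 2) → ∀ (ι : Type) [Fintype ι] [DecidableEq ι] (z : ι → Y)
  (s e : ι → ℕ) (w : ℕ → ℝ) (α β Q : ℕ), 1 ≤ Q → α < β → (∀ x, 0 ≤ w x) →
  (∀ i, s i < e i) → (∀ i j, i ≠ j → z i = z j → e i ≤ s j ∨ e j ≤ s i) →
  (∀ i k, s i ≤ k → k + 1 < e i → u[k]? ≠ some (z i)) →
  (∀ x, α ≤ x → x < β → cov s e univ x = Q) →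
  (∀ i, p (z i) ≤ wt w (s i) (e i)) →
  ∃ S : RSys Y, S.Q = Q ∧ S.W = wt w α β + 4 ∧ (∀ i < S.F, ∃ j, S.ℓ i = z j) ∧
    (∀ i < S.F, p (S.ℓ i) ≤ S.τ (S.π i) - S.τ i) ∧
    ∀ l, S.Path l → ∀ g h, α ≤ g → h ≤ u.length →
      (l.map S.ℓ).Sublist ((u.take h).drop g) → β ≤ h

/-- NSW: the concatenation over the segments `[β j, β (j + 1))` is not a subword. -/
def T_NSW : Prop := ∀ (Y : Type) (u : List Y) (β : ℕ → ℕ) (vs : List (List Y)),
  β 0 = 0 → u.length < β vs.length →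
  (∀ j v, vs[j]? = some v → ∀ g h, β j ≤ g → h ≤ u.length →
    v.Sublist ((u.take h).drop g) → β (j + 1) ≤ h) →
  ¬ vs.flatten.Sublist u

end Pool.Agent.H66.SLP
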